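import Pool.Agent.H91.TJ.Stm

/-!
# TJ part CSL: refinement by Cauchy-Schwarz
-/

set_option autoImplicit false

namespace Pool.Agent.H27.TJ

open Finset
open Pool.Agent.Y516.OJ (Fam wt Wt EE ind Disj nInt nErr Prot tot)
open Pool.Agent.Y85.OJ (ind_nonneg ind_true ind_false)
open Pool.Agent.H91.TJ

theorem ind_mono {P Q : Prop} (h : P → Q) : ind P ≤ ind Q := by
  by_cases hP : P
  · rw [ind_true hP, ind_true (h hP)]
  · rw [ind_false hP]; exact ind_nonneg _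

theorem part_sum {Ω C : Type} [Fintype Ω] [DecidableEq C] (W : Ω → ℝ) (π : Ω → C)
    (P : Ω → Prop) (s : Finset C) :
    ∑ c ∈ s, ∑ ω, W ω * ind (P ω ∧ π ω = c) = ∑ ω, W ω * ind (P ω ∧ π ω ∈ s) := by
  rw [Finset.sum_comm]
  refine Finset.sum_congr rfl fun ω _ => ?_
  rw [← Finset.mul_sum]
  congr 1
  by_cases hP : P ω
  · by_cases hs : π ω ∈ s
    · rw [ind_true ⟨hP, hs⟩, Finset.sum_eq_single (π ω)]
      · exact ind_true ⟨hP, rfl⟩
      · intro c _ hc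
        exact ind_false fun h => hc h.2.symm
      · intro h
        exact absurd hs h
    · rw [ind_false fun h => hs h.2]
      exact Finset.sum_eq_zero fun c hc => ind_false fun h => hs (h.2 ▸ hc)
  · rw [ind_false fun h => hP h.1]
    exact Finset.sum_eq_zero fun c _ => ind_false fun h => hP h.1

theorem w_mono {Ω : Type} [Fintype Ω] (W : Ω → ℝ) (hW : ∀ ω, 0 ≤ W ω) {P Q : Ω → Prop}
    (h : ∀ ω, P ω → Q ω) : ∑ ω, W ω * ind (P ω) ≤ ∑ ω, W ω * ind (Q ω) :=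
  Finset.sum_le_sum fun ω _ => mul_le_mul_of_nonneg_left (ind_mono (h ω)) (hW ω)

theorem w_nonneg {Ω : Type} [Fintype Ω] (W : Ω → ℝ) (hW : ∀ ω, 0 ≤ W ω) (P : Ω → Prop) :
    0 ≤ ∑ ω, W ω * ind (P ω) :=
  Finset.sum_nonneg fun ω _ => mul_nonneg (hW ω) (ind_nonneg _)

theorem w_pos_ex {Ω : Type} [Fintype Ω] (W : Ω → ℝ) {P : Ω → Prop}
    (h : 0 < ∑ ω, W ω * ind (P ω)) : ∃ ω, P ω := by
  by_contra hno
  push Not at hno
  have : ∑ ω, W ω * ind (P ω) = 0 :=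
    Finset.sum_eq_zero fun ω _ => by rw [ind_false (hno ω), mul_zero]
  linarith

theorem t_CSL : S_CSL := by
  classical
  intro Ω C _ _ W π L R Dj Ba Big hW hRL hDB hBa hBig hx0 h34 h16
  by_contra hcon
  push Not at hcon
  set x := ∑ ω, W ω * ind (R ω ∧ Dj ω) with hx
  set y := ∑ ω, W ω * ind (R ω) with hy
  set ν := ∑ ω, W ω * ind (L ω) with hν
  set xc : C → ℝ := fun c => ∑ ω, W ω * ind ((R ω ∧ Dj ω) ∧ π ω = c) with hxc
  set yc : C → ℝ := fun c => ∑ ω, W ω * ind (R ω ∧ π ω = c) with hyc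
  set νc : C → ℝ := fun c => ∑ ω, W ω * ind (L ω ∧ π ω = c) with hνc
  set G : Finset C := univ.filter (fun c => 0 < xc c ∧ ∀ ω, π ω = c → ¬ Big ω) with hG
  have hxy : x ≤ y := w_mono W hW fun ω h => h.1
  have hyν : y ≤ ν := w_mono W hW fun ω h => hRL ω h
  have hypos : 0 < y := lt_of_lt_of_le hx0 hxy
  have hνpos : 0 < ν := lt_of_lt_of_le hypos hyν
  -- the main inequality on the classes in `G`
  have hmain : ∀ c ∈ G, xc c ^ 2 ≤ (8 / 7 * x ^ 2 / (y * ν) * yc c) * νc c := by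
    intro c hc
    obtain ⟨hpos, hnb⟩ := (Finset.mem_filter.1 hc).2
    obtain ⟨ω₀, ⟨hR, hD⟩, hπ⟩ := w_pos_ex W hpos
    have h1 := hcon ω₀ hR (hnb ω₀ hπ)
    rw [hπ] at h1
    have h2 := h1 hpos
    have h3 : 7 / 8 * (y * ν) * xc c ^ 2 < yc c * νc c * x ^ 2 := h2
    have hyν0 : 0 < y * ν := mul_pos hypos hνpos
    have : (8 / 7 * x ^ 2 / (y * ν) * yc c) * νc c
        = 8 / 7 * (yc c * νc c * x ^ 2) / (y * ν) := by
      field_simp
    rw [this, le_div_iff₀ hyν0]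
    nlinarith
  have hyc0 : ∀ c, 0 ≤ yc c := fun c => w_nonneg W hW _
  have hνc0 : ∀ c, 0 ≤ νc c := fun c => w_nonneg W hW _
  have hcs := Finset.sum_sq_le_sum_mul_sum_of_sq_le_mul G (r := xc)
    (f := fun c => 8 / 7 * x ^ 2 / (y * ν) * yc c) (g := νc)
    (fun c _ => mul_nonneg (by positivity) (hyc0 c)) (fun c _ => hνc0 c) hmain
  -- the sums over `G`
  have hyG : ∑ c ∈ G, yc c ≤ 3 / 4 * y := by
    rw [hyc, part_sum W π R G]
    refine le_trans (w_mono W hW ?_) h34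
    rintro ω ⟨hR, hmem⟩
    refine ⟨hR, ?_⟩
    obtain ⟨hpos, hnb⟩ := (Finset.mem_filter.1 hmem).2
    obtain ⟨ω₀, ⟨hR0, hD0⟩, hπ⟩ := w_pos_ex W hpos
    intro hb
    exact hDB ω₀ hD0 ((hBa ω ω₀ hπ.symm).1 hb)
  have hνG : ∑ c ∈ G, νc c ≤ ν := by
    rw [hνc, part_sum W π L G]
    exact w_mono W hW fun ω h => h.1
  have hxG : 15 / 16 * x ≤ ∑ c ∈ G, xc c := by
    have htot : ∑ c ∈ G, xc c + ∑ c ∈ Gᶜ, xc c = x := by
      rw [Finset.sum_add_sum_compl]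
      rw [hxc, part_sum W π (fun ω => R ω ∧ Dj ω) univ, hx]
      refine Finset.sum_congr rfl fun ω _ => ?_
      congr 1
      by_cases h : R ω ∧ Dj ω
      · rw [ind_true h, ind_true ⟨h, Finset.mem_univ _⟩]
      · rw [ind_false h, ind_false fun h' => h h'.1]
    have hcomp : ∑ c ∈ Gᶜ, xc c ≤ 1 / 16 * x := by
      refine le_trans ?_ h16
      have h1 : ∀ c ∈ Gᶜ, xc c ≤ ∑ ω, W ω * ind ((L ω ∧ Big ω) ∧ π ω = c) := by
        intro c hc
        by_cases hpos : 0 < xc c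
        · have hex : ∃ ω, π ω = c ∧ Big ω := by
            by_contra hno
            push Not at hno
            exact (Finset.mem_compl.1 hc) (Finset.mem_filter.2 ⟨Finset.mem_univ _, hpos, hno⟩)
          obtain ⟨ω₁, hπ1, hB1⟩ := hex
          refine w_mono W hW ?_
          rintro ω ⟨⟨hR, hD⟩, hπ⟩
          exact ⟨⟨hRL ω hR, (hBig ω₁ ω (hπ1.trans hπ.symm)).1 hB1⟩, hπ⟩
        · exact le_trans (not_lt.1 hpos) (w_nonneg W hW _)
      refine (Finset.sum_le_sum h1).trans ?_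
      rw [part_sum W π (fun ω => L ω ∧ Big ω) Gᶜ]
      exact w_mono W hW fun ω h => h.1
    linarith
  -- the contradiction
  have hsum : (∑ c ∈ G, 8 / 7 * x ^ 2 / (y * ν) * yc c) * ∑ c ∈ G, νc c ≤ 6 / 7 * x ^ 2 := by
    rw [← Finset.mul_sum]
    have h1 : (8 / 7 * x ^ 2 / (y * ν) * ∑ c ∈ G, yc c) * ∑ c ∈ G, νc c
        ≤ (8 / 7 * x ^ 2 / (y * ν) * (3 / 4 * y)) * ν := by
      apply mul_le_mul _ hνG (Finset.sum_nonneg fun c _ => hνc0 c) (by positivity)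
      exact mul_le_mul_of_nonneg_left hyG (by positivity)
    refine h1.trans (le_of_eq ?_)
    field_simp
    norm_num
  have hsq : (15 / 16 * x) ^ 2 ≤ (∑ c ∈ G, xc c) ^ 2 :=
    pow_le_pow_left₀ (by positivity) hxG 2
  nlinarith [hsq, hcs, hsum, sq_nonneg x, mul_pos hx0 hx0]

end Pool.Agent.H27.TJ
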