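import Pool.Agent.H27.TJ.Csl

/-!
# TJ part DIC: if heavy elements rarely meet, then few pairs meet
-/

set_option autoImplicit false

namespace Pool.Agent.H27.TJ

open Finset
open Pool.Agent.Y516.OJ (Fam wt Wt EE ind Disj nInt nErr Prot tot)
open Pool.Agent.Y85.OJ (ind_nonneg ind_true ind_false Wt_nonneg EE_mono EE_nonneg EE_sum)
open Pool.Agent.H91.TJ

theorem EE_prod (α : ℝ) {u k : ℕ} (P Q : Fam u k → Prop) :
    EE α (fun X Y => ind (P X) * ind (Q Y)) = mu α P * mu α Q := by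
  unfold EE mu
  rw [Finset.sum_mul_sum]
  refine Finset.sum_congr rfl fun X _ => Finset.sum_congr rfl fun Y _ => ?_
  ring

theorem EE_add' (α : ℝ) {u k : ℕ} (f g : Fam u k → Fam u k → ℝ) :
    EE α (fun X Y => f X Y + g X Y) = EE α f + EE α g := by
  unfold EE
  simp only [mul_add, Finset.sum_add_distrib]

theorem EE_smul (α c : ℝ) {u k : ℕ} (f : Fam u k → Fam u k → ℝ) :
    EE α (fun X Y => c * f X Y) = c * EE α f := by
  unfold EE
  simp only [Finset.mul_sum]
  refine Finset.sum_congr rfl fun X _ => Finset.sum_congr rfl fun Y _ => ?_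
  ring

theorem mu_nonneg {α : ℝ} (h0 : 0 ≤ α) (h1 : α ≤ 1) {u k : ℕ} (P : Fam u k → Prop) :
    0 ≤ mu α P :=
  Finset.sum_nonneg fun X _ => mul_nonneg (Wt_nonneg h0 h1 X) (ind_nonneg _)

theorem ind_le_one (P : Prop) : ind P ≤ 1 := by
  by_cases h : P
  · rw [ind_true h]
  · rw [ind_false h]; norm_num

/-- the pointwise inequality -/
theorem pointwise {u k m : ℕ} (D : Finset (Fin k × Fin k)) (F G : Fam u k → Prop)
    (AX AY : Finset (Fin u × Fin k)) (hm : 1 ≤ m) (X Y : Fam u k) :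
    ind (F X) * ind (G Y) * ind (¬ Bad D AX AY X Y) ≤
      ind (F X) * ind (G Y) * ind (2 * nInt D X Y ≤ m) +
        2 / (m : ℝ) * ∑ p ∈ D ×ˢ (univ : Finset (Fin u)),
          ind ((p.2, p.1.1) ∉ AX ∨ (p.2, p.1.2) ∉ AY) *
            (ind (F X ∧ X p.2 p.1.1 = true) * ind (G Y ∧ Y p.2 p.1.2 = true)) := by
  classical
  have hm0 : (0 : ℝ) < m := by exact_mod_cast hm
  have hs0 : 0 ≤ ∑ p ∈ D ×ˢ (univ : Finset (Fin u)),
      ind ((p.2, p.1.1) ∉ AX ∨ (p.2, p.1.2) ∉ AY) *
        (ind (F X ∧ X p.2 p.1.1 = true) * ind (G Y ∧ Y p.2 p.1.2 = true)) :=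
    Finset.sum_nonneg fun p _ => mul_nonneg (ind_nonneg _) (mul_nonneg (ind_nonneg _) (ind_nonneg _))
  have hr0 : 0 ≤ 2 / (m : ℝ) * ∑ p ∈ D ×ˢ (univ : Finset (Fin u)),
      ind ((p.2, p.1.1) ∉ AX ∨ (p.2, p.1.2) ∉ AY) *
        (ind (F X ∧ X p.2 p.1.1 = true) * ind (G Y ∧ Y p.2 p.1.2 = true)) :=
    mul_nonneg (by positivity) hs0
  have hl0 : 0 ≤ ind (F X) * ind (G Y) * ind (2 * nInt D X Y ≤ m) :=
    mul_nonneg (mul_nonneg (ind_nonneg _) (ind_nonneg _)) (ind_nonneg _)
  by_cases hF : F X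
  swap
  · rw [ind_false hF, zero_mul, zero_mul, zero_mul, zero_add]
    exact hr0
  by_cases hG : G Y
  swap
  · rw [ind_false hG, mul_zero, zero_mul, zero_mul, zero_add]
    exact hr0
  by_cases hB : Bad D AX AY X Y
  · rw [ind_false (not_not.2 hB), mul_zero]
    exact add_nonneg hl0 hr0
  by_cases hn : 2 * nInt D X Y ≤ m
  · rw [ind_true hn, ind_true hB]
    linarith
  rw [ind_true hF, ind_true hG, ind_true hB, ind_false hn]
  -- the number of pairs which meet
  have hcard : (nInt D X Y : ℝ) ≤ ∑ p ∈ D ×ˢ (univ : Finset (Fin u)),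
      ind ((p.2, p.1.1) ∉ AX ∨ (p.2, p.1.2) ∉ AY) *
        (ind (F X ∧ X p.2 p.1.1 = true) * ind (G Y ∧ Y p.2 p.1.2 = true)) := by
    rw [Finset.sum_product]
    unfold nInt
    rw [Finset.card_eq_sum_ones]
    push_cast
    refine le_trans (Finset.sum_le_sum (g := fun d => ∑ e, ind ((e, d.1) ∉ AX ∨ (e, d.2) ∉ AY) *
        (ind (F X ∧ X e d.1 = true) * ind (G Y ∧ Y e d.2 = true))) ?_) ?_
    · intro d hd
      obtain ⟨hdD, hnd⟩ := Finset.mem_filter.1 hd
      unfold Disj at hnd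
      push Not at hnd
      obtain ⟨e, he1, he2⟩ := hnd
      have hc : (e, d.1) ∉ AX ∨ (e, d.2) ∉ AY := by
        by_contra hcon
        push Not at hcon
        exact hB ⟨d, hdD, e, hcon.1, hcon.2, he1, he2⟩
      have h1 : ind ((e, d.1) ∉ AX ∨ (e, d.2) ∉ AY) *
        (ind (F X ∧ X e d.1 = true) * ind (G Y ∧ Y e d.2 = true)) = 1 := by
        rw [ind_true hc, ind_true ⟨hF, he1⟩, ind_true ⟨hG, he2⟩]
        norm_num
      calc (1 : ℝ) = ind ((e, d.1) ∉ AX ∨ (e, d.2) ∉ AY) *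
        (ind (F X ∧ X e d.1 = true) * ind (G Y ∧ Y e d.2 = true)) := h1.symm
        _ ≤ _ := Finset.single_le_sum (f := fun e => ind ((e, d.1) ∉ AX ∨ (e, d.2) ∉ AY) *
            (ind (F X ∧ X e d.1 = true) * ind (G Y ∧ Y e d.2 = true)))
            (fun e _ => mul_nonneg (ind_nonneg _) (mul_nonneg (ind_nonneg _) (ind_nonneg _)))
            (Finset.mem_univ e)
    · refine Finset.sum_le_sum_of_subset_of_nonneg (Finset.filter_subset _ _) fun d _ _ => ?_
      exact Finset.sum_nonneg fun e _ =>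
        mul_nonneg (ind_nonneg _) (mul_nonneg (ind_nonneg _) (ind_nonneg _))
  have hn2 : (m : ℝ) < 2 * nInt D X Y := by
    have : m < 2 * nInt D X Y := not_le.1 hn
    exact_mod_cast this
  have h2 : 1 ≤ 2 / (m : ℝ) * nInt D X Y := by
    rw [div_mul_eq_mul_div, le_div_iff₀ hm0]
    linarith
  have h3 := mul_le_mul_of_nonneg_left hcard (show (0 : ℝ) ≤ 2 / (m : ℝ) by positivity)
  linarith

theorem t_DIC : S_DIC := by
  classical
  intro u k m M S D F G AX AY hDm hm hM hAX hAY hSF hSG hSM h34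
  have hMr : (2 : ℝ) ≤ M := by exact_mod_cast hM
  have hm0 : (0 : ℝ) < m := by exact_mod_cast hm
  set α : ℝ := 1 / (M : ℝ) with hα
  have h0 : 0 ≤ α := by rw [hα]; positivity
  have h1 : α ≤ 1 := by
    rw [hα, div_le_one (by linarith)]
    linarith
  have hSα : α * S ≤ 1 / 64 := by
    rw [hα, one_div, inv_mul_eq_div]
    exact hSM
  have hF0 := mu_nonneg h0 h1 F
  have hG0 := mu_nonneg h0 h1 G
  have hle := EE_mono h0 h1 (fun X Y => pointwise D F G AX AY hm X Y)
  rw [EE_add', EE_smul, EE_sum] at hle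
  have hsum : ∑ p ∈ D ×ˢ (univ : Finset (Fin u)),
      ind ((p.2, p.1.1) ∉ AX ∨ (p.2, p.1.2) ∉ AY) *
        EE α (fun X Y => ind (F X ∧ X p.2 p.1.1 = true) * ind (G Y ∧ Y p.2 p.1.2 = true)) ≤
      m * (8 * (α * S) * (mu α F * mu α G)) := by
    rw [Finset.sum_product]
    have hterm : ∀ d ∈ D, ∑ e : Fin u, ind ((e, d.1) ∉ AX ∨ (e, d.2) ∉ AY) *
        EE α (fun X Y => ind (F X ∧ X e d.1 = true) * ind (G Y ∧ Y e d.2 = true)) ≤
        8 * (α * S) * (mu α F * mu α G) := by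
      intro d _
      have he : ∀ e : Fin u, ind ((e, d.1) ∉ AX ∨ (e, d.2) ∉ AY) *
          EE α (fun X Y => ind (F X ∧ X e d.1 = true) * ind (G Y ∧ Y e d.2 = true)) ≤
          4 * α * mu α F * mu α (fun Y => G Y ∧ Y e d.2 = true) +
          4 * α * mu α G * mu α (fun X => F X ∧ X e d.1 = true) := by
        intro e
        have hp := EE_prod α (fun X : Fam u k => F X ∧ X e d.1 = true)
          (fun Y : Fam u k => G Y ∧ Y e d.2 = true)
        rw [hp]
        have ha := mu_nonneg h0 h1 (fun X : Fam u k => F X ∧ X e d.1 = true)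
        have hb := mu_nonneg h0 h1 (fun Y : Fam u k => G Y ∧ Y e d.2 = true)
        have hr1 : 0 ≤ 4 * α * mu α F * mu α (fun Y => G Y ∧ Y e d.2 = true) := by positivity
        have hr2 : 0 ≤ 4 * α * mu α G * mu α (fun X => F X ∧ X e d.1 = true) := by positivity
        by_cases hc : (e, d.1) ∉ AX ∨ (e, d.2) ∉ AY
        · rw [ind_true hc, one_mul]
          rcases hc with hc | hc
          · have := mul_le_mul_of_nonneg_right (hAX (e, d.1) hc) hb
            linarith
          · have := mul_le_mul_of_nonneg_left (hAY (e, d.2) hc) ha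
            linarith
        · rw [ind_false hc, zero_mul]
          linarith
      refine (Finset.sum_le_sum fun e _ => he e).trans ?_
      rw [Finset.sum_add_distrib, ← Finset.mul_sum, ← Finset.mul_sum]
      have g1 := mul_le_mul_of_nonneg_left (hSG d.2) (show 0 ≤ 4 * α * mu α F by positivity)
      have g2 := mul_le_mul_of_nonneg_left (hSF d.1) (show 0 ≤ 4 * α * mu α G by positivity)
      linarith
    refine (Finset.sum_le_sum hterm).trans ?_
    rw [Finset.sum_const, hDm, nsmul_eq_mul]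
  have h2 := mul_le_mul_of_nonneg_left hsum (show (0 : ℝ) ≤ 2 / (m : ℝ) by positivity)
  have h3 : 2 / (m : ℝ) * (m * (8 * (α * S) * (mu α F * mu α G))) =
      16 * (α * S) * (mu α F * mu α G) := by
    field_simp
    ring
  have h4 : 16 * (α * S) * (mu α F * mu α G) ≤ 1 / 4 * (mu α F * mu α G) :=
    mul_le_mul_of_nonneg_right (by linarith) (mul_nonneg hF0 hG0)
  linarith

end Pool.Agent.H27.TJ
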